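import Pool.Agent.Helper60.RT.Defs2
import Pool.Agent.Helper3.RT.C3

/-!
# Project RT, block C1: from a sector near `n` to the state of `n` at a frozen height `y`

The phase of the sector in the frame of `n` is `T₀ u √(1 + (y₀ t)²)`, the phase of the state is `T' u √(1 + (y t)²)`, with `T₀ y₀² = T' y²`; the difference is a linear form plus
`u χ(t)` with `χ` of the fourth order in `t`, a bounded multiplier.
-/

open MeasureTheory Real Set Filter Topology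

set_option autoImplicit false

namespace Pool.Agent.Helper60.RT

open Pool.Agent.Helper22.AE
open Pool.Agent.Helper22.AC (IsWt)
open Pool.Agent.Helper92.GC (dt tp Tq uu tt arc dd sqa m6)
open Pool.Agent.Helper92.DT (m12 IsMul12)
open Pool.Agent.Helper60.LT (Fr Tf xf yf df vf fr ac co Cut BB PP)
open Pool.Agent.Helper60.QL (R3 nm pA xA sA TA Cone)

/-! ## the phase -/

private noncomputable def G_h18 (z : ℝ) : ℝ := √(1 + z ^ 2) - 1 - z ^ 2 / 2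

private theorem w_h18 (z : ℝ) : 1 ≤ √(1 + z ^ 2) ∧ √(1 + z ^ 2) ^ 2 = 1 + z ^ 2 ∧ √(1 + z ^ 2) - 1 ≤ z ^ 2 / 2 := by
  have h1 : 0 ≤ 1 + z ^ 2 := by positivity
  have h2 := Real.sq_sqrt h1
  have h3 := Real.sqrt_nonneg (1 + z ^ 2)
  have h4 : 1 ≤ √(1 + z ^ 2) := by
    rw [Real.one_le_sqrt]
    nlinarith [sq_nonneg z]
  refine ⟨h4, h2, ?_⟩
  have h5 : √(1 + z ^ 2) ≤ 1 + z ^ 2 / 2 := by
    rw [Real.sqrt_le_left (by positivity)]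
    nlinarith [sq_nonneg (z ^ 2)]
  linarith

private theorem G_eq_h18 (z : ℝ) : G_h18 z = -((√(1 + z ^ 2) - 1) ^ 2 / 2) := by
  obtain ⟨-, h, -⟩ := w_h18 z
  unfold G_h18
  linear_combination (1 / 2) * h

private theorem G_bd_h18 (z : ℝ) : |G_h18 z| ≤ z ^ 4 / 8 := by
  obtain ⟨h1, -, h3⟩ := w_h18 z
  rw [G_eq_h18, abs_neg, abs_of_nonneg (by positivity)]
  have h4 : (√(1 + z ^ 2) - 1) ^ 2 ≤ (z ^ 2 / 2) ^ 2 := pow_le_pow_left₀ (by linarith) h3 2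
  nlinarith

private theorem G_lip_h18 {m z z' : ℝ} (hz : |z| ≤ m) (hz' : |z'| ≤ m) : |G_h18 z - G_h18 z'| ≤ m ^ 3 / 2 * |z - z'| := by
  obtain ⟨h1, h2, h3⟩ := w_h18 z
  obtain ⟨h1', h2', h3'⟩ := w_h18 z'
  have hm : 0 ≤ m := (abs_nonneg z).trans hz
  have hz2 : z ^ 2 ≤ m ^ 2 := by
    rw [← sq_abs z]
    exact pow_le_pow_left₀ (abs_nonneg z) hz 2
  have hz2' : z' ^ 2 ≤ m ^ 2 := by
    rw [← sq_abs z']
    exact pow_le_pow_left₀ (abs_nonneg z') hz' 2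
  rw [G_eq_h18, G_eq_h18]
  obtain ⟨w, hw⟩ : ∃ w, w = √(1 + z ^ 2) := ⟨_, rfl⟩
  obtain ⟨w', hw'⟩ : ∃ w', w' = √(1 + z' ^ 2) := ⟨_, rfl⟩
  rw [← hw] at h1 h2 h3 ⊢
  rw [← hw'] at h1' h2' h3' ⊢
  have e : -((w - 1) ^ 2 / 2) - -((w' - 1) ^ 2 / 2) = -((w - w') * ((w - 1) + (w' - 1)) / 2) := by ring
  have h5 : |w - w'| ≤ m * |z - z'| := by
    have h6 : (w - w') * (w + w') = (z - z') * (z + z') := by linear_combination h2 - h2'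
    have h7 : |w - w'| * (w + w') = |z - z'| * |z + z'| := by
      rw [← abs_mul, ← h6, abs_mul, abs_of_pos (by linarith : 0 < w + w')]
    have h8 : |z + z'| ≤ 2 * m := (abs_add_le z z').trans (by linarith)
    have h9 : |w - w'| * 2 ≤ |w - w'| * (w + w') := mul_le_mul_of_nonneg_left (by linarith) (abs_nonneg _)
    have h10 : |z - z'| * |z + z'| ≤ |z - z'| * (2 * m) := mul_le_mul_of_nonneg_left h8 (abs_nonneg _)
    nlinarith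
  rw [e, abs_neg, abs_div, abs_mul, abs_of_nonneg (by linarith : 0 ≤ (w - 1) + (w' - 1)), abs_of_pos (by norm_num : (0 : ℝ) < 2)]
  have h11 : (w - 1) + (w' - 1) ≤ m ^ 2 := by linarith
  have h12 : |w - w'| * ((w - 1) + (w' - 1)) ≤ m * |z - z'| * m ^ 2 :=
    mul_le_mul h5 h11 (by linarith) (mul_nonneg hm (abs_nonneg _))
  nlinarith

private theorem ee_add_h18 (x y : ℝ) : ee (x + y) = ee x * ee y := by
  unfold ee
  rw [← Complex.exp_add]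
  congr 1
  push_cast
  ring

private theorem cmp_h18 {I' : Finset (ℤ × ℤ)} {T0 y₀ T' y x U t₂ B' : ℝ} (hU : 0 < U) (ht : 0 ≤ t₂) (hS : ∀ k ∈ I', 0 < uu x k ∧ uu x k ≤ U ∧ |tt x k| ≤ t₂)
    (hTy : T0 * y₀ ^ 2 = T' * y ^ 2) (hT0 : 0 ≤ T0) (hT' : 0 ≤ T') (hy₀ : 0 ≤ y₀) (hy : 0 ≤ y) (hB : (T0 * y₀ ^ 4 + T' * y ^ 4) * t₂ ^ 4 * U ≤ B') :
    m12 I' (fun k => ee (T0 * (uu x k * √(1 + (y₀ * tt x k) ^ 2)))) ≤ exp (3800 * B') ^ 12 * m12 I' (fun k => ee (T' * (uu x k * √(1 + (y * tt x k) ^ 2)))) := by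
  have hA : 0 ≤ (T0 * y₀ ^ 4 + T' * y ^ 4) * t₂ ^ 4 := by positivity
  have hAB : (T0 * y₀ ^ 4 + T' * y ^ 4) * t₂ ^ 4 ≤ B' / U := by
    rw [le_div_iff₀ hU]
    exact hB
  have hm := Pool.Agent.Helper92.DT.mul12_exp (S := I') (β := x) hU (by linarith : -t₂ ≤ t₂) (fun k hk => ⟨(hS k hk).1, (hS k hk).2.1, (abs_le.1 (hS k hk).2.2).1, (abs_le.1 (hS k hk).2.2).2⟩)
    (χ := fun t => T0 * G_h18 (y₀ * t) - T' * G_h18 (y * t)) (B := B') (by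
      intro t htt
      have ht1 : |t| ≤ t₂ := abs_le.2 htt
      have ht4 : t ^ 4 ≤ t₂ ^ 4 := by
        have : t ^ 4 = |t| ^ 4 := by
          rw [← abs_pow, abs_of_nonneg (by positivity)]
        rw [this]
        exact pow_le_pow_left₀ (abs_nonneg t) ht1 4
      have h1 : |T0 * G_h18 (y₀ * t)| ≤ T0 * ((y₀ * t) ^ 4 / 8) := by
        rw [abs_mul, abs_of_nonneg hT0]
        exact mul_le_mul_of_nonneg_left (G_bd_h18 _) hT0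
      have h2 : |T' * G_h18 (y * t)| ≤ T' * ((y * t) ^ 4 / 8) := by
        rw [abs_mul, abs_of_nonneg hT']
        exact mul_le_mul_of_nonneg_left (G_bd_h18 _) hT'
      have h3 := abs_sub (T0 * G_h18 (y₀ * t)) (T' * G_h18 (y * t))
      have h4 : T0 * ((y₀ * t) ^ 4 / 8) + T' * ((y * t) ^ 4 / 8) = (T0 * y₀ ^ 4 + T' * y ^ 4) * t ^ 4 / 8 := by ring
      have h5 : (T0 * y₀ ^ 4 + T' * y ^ 4) * t ^ 4 ≤ (T0 * y₀ ^ 4 + T' * y ^ 4) * t₂ ^ 4 := mul_le_mul_of_nonneg_left ht4 (by positivity)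
      linarith)
    (by
      intro t ht1 t' ht2
      have hb1 : |t| ≤ t₂ := abs_le.2 ht1
      have hb2 : |t'| ≤ t₂ := abs_le.2 ht2
      have h1 : |G_h18 (y₀ * t) - G_h18 (y₀ * t')| ≤ (y₀ * t₂) ^ 3 / 2 * |y₀ * t - y₀ * t'| :=
        G_lip_h18 (by rw [abs_mul, abs_of_nonneg hy₀]; exact mul_le_mul_of_nonneg_left hb1 hy₀) (by rw [abs_mul, abs_of_nonneg hy₀]; exact mul_le_mul_of_nonneg_left hb2 hy₀)
      have h2 : |G_h18 (y * t) - G_h18 (y * t')| ≤ (y * t₂) ^ 3 / 2 * |y * t - y * t'| :=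
        G_lip_h18 (by rw [abs_mul, abs_of_nonneg hy]; exact mul_le_mul_of_nonneg_left hb1 hy) (by rw [abs_mul, abs_of_nonneg hy]; exact mul_le_mul_of_nonneg_left hb2 hy)
      rw [← mul_sub, abs_mul, abs_of_nonneg hy₀] at h1
      rw [← mul_sub, abs_mul, abs_of_nonneg hy] at h2
      have e : T0 * G_h18 (y₀ * t) - T' * G_h18 (y * t) - (T0 * G_h18 (y₀ * t') - T' * G_h18 (y * t')) =
          T0 * (G_h18 (y₀ * t) - G_h18 (y₀ * t')) - T' * (G_h18 (y * t) - G_h18 (y * t')) := by ring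
      have h3 := abs_sub (T0 * (G_h18 (y₀ * t) - G_h18 (y₀ * t'))) (T' * (G_h18 (y * t) - G_h18 (y * t')))
      rw [abs_mul T0, abs_mul T', abs_of_nonneg hT0, abs_of_nonneg hT'] at h3
      have h4 := mul_le_mul_of_nonneg_left h1 hT0
      have h5 := mul_le_mul_of_nonneg_left h2 hT'
      have h6 : |T0 * G_h18 (y₀ * t) - T' * G_h18 (y * t) - (T0 * G_h18 (y₀ * t') - T' * G_h18 (y * t'))| ≤
          (T0 * y₀ ^ 4 + T' * y ^ 4) * t₂ ^ 3 / 2 * |t - t'| := by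
        rw [e]
        refine h3.trans ((add_le_add h4 h5).trans (le_of_eq ?_))
        ring
      have h7 : (0 : ℝ) ≤ t₂ - -t₂ := by linarith
      calc |T0 * G_h18 (y₀ * t) - T' * G_h18 (y * t) - (T0 * G_h18 (y₀ * t') - T' * G_h18 (y * t'))| * (t₂ - -t₂) ≤
          (T0 * y₀ ^ 4 + T' * y ^ 4) * t₂ ^ 3 / 2 * |t - t'| * (t₂ - -t₂) := mul_le_mul_of_nonneg_right h6 h7
        _ = (T0 * y₀ ^ 4 + T' * y ^ 4) * t₂ ^ 4 * |t - t'| := by ring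
        _ ≤ B' / U * |t - t'| := mul_le_mul_of_nonneg_right hAB (abs_nonneg _))
  obtain ⟨c, hc⟩ : ∃ c : ℝ × ℝ, c = (T' - T0, (T' - T0) * x) := ⟨_, rfl⟩
  have e1 : m12 I' (fun k => ee (T0 * (uu x k * √(1 + (y₀ * tt x k) ^ 2)))) =
      m12 I' (fun k => ee (uu x k * (T0 * G_h18 (y₀ * tt x k) - T' * G_h18 (y * tt x k))) * ee (T' * (uu x k * √(1 + (y * tt x k) ^ 2)))) := by
    rw [← Pool.Agent.Helper92.DT.m12_shift I' _ c]
    refine Pool.Agent.Helper92.DT.m12_congr fun k _ => ?_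
    rw [← ee_add_h18, ← ee_add_h18]
    congr 1
    rw [hc]
    unfold dt G_h18
    have hu : (k.1 : ℝ) = uu x k - x * k.2 := by
      unfold uu
      ring
    simp only
    rw [hu]
    linear_combination (uu x k * tt x k ^ 2 / 2) * hTy
  rw [e1]
  exact hm.2 _

/-! ## the constants -/

private theorem consts_h18 {e : Fr} (he : 0 < df e) {B : ℝ} (hB : 1 ≤ B) : ∃ c M q : ℝ, 0 < c ∧ 0 < M ∧ 1 ≤ q ∧ ∀ s ∈ Icc B⁻¹ B, ∀ τ : ℝ,
    c ≤ T2 e τ s ∧ |xs e τ s| ≤ q ∧ (|τ| ≤ 4 → T2 e τ s ≤ M) := by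
  obtain ⟨E, hE⟩ : ∃ E, E = e.2.1 ^ 2 + B ^ 2 * e.2.2 ^ 2 + 1 := ⟨_, rfl⟩
  obtain ⟨c, hc⟩ : ∃ c, c = df e ^ 2 / (B ^ 2 * E) := ⟨_, rfl⟩
  obtain ⟨M, hM⟩ : ∃ M, M = (|e.1.1| + 4 * |e.2.1|) ^ 2 + B ^ 2 * (|e.1.2| + 4 * |e.2.2|) ^ 2 + 1 := ⟨_, rfl⟩
  have hB0 : 0 < B := by linarith
  have hE0 : 0 < E := by
    rw [hE]
    positivity
  have hc0 : 0 < c := by
    rw [hc]
    positivity
  have hM0 : 0 < M := by
    rw [hM]
    positivity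
  refine ⟨c, M, E / c + 1, hc0, hM0, by have := div_pos hE0 hc0; linarith, ?_⟩
  intro s hs τ
  obtain ⟨hs1, hs2⟩ := hs
  have hs0 : 0 < s := lt_of_lt_of_le (inv_pos.2 hB0) hs1
  have hsB : 1 ≤ s * B := by
    have h1 := mul_le_mul_of_nonneg_right hs1 hB0.le
    rwa [inv_mul_cancel₀ hB0.ne'] at h1
  have hs2' : s ^ 2 ≤ B ^ 2 := pow_le_pow_left₀ hs0.le hs2 2
  have hsB2 : 1 ≤ s ^ 2 * B ^ 2 := by
    have h1 := mul_le_mul hsB hsB (by norm_num) (by positivity)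
    nlinarith
  have hdf : df e = l1 e τ * e.2.2 - l2 e τ * e.2.1 := by
    unfold df l1 l2
    ring
  have hT2 : T2 e τ s = l1 e τ ^ 2 + s ^ 2 * l2 e τ ^ 2 := rfl
  have hEs : e.2.1 ^ 2 + s ^ 2 * e.2.2 ^ 2 ≤ E := by
    rw [hE]
    have := mul_le_mul_of_nonneg_right hs2' (sq_nonneg e.2.2)
    linarith
  have hT0' : 0 ≤ T2 e τ s := by
    rw [hT2]
    positivity
  have hlow : c ≤ T2 e τ s := by
    have h1 : s ^ 2 * df e ^ 2 ≤ T2 e τ s * (e.2.1 ^ 2 + s ^ 2 * e.2.2 ^ 2) := by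
      rw [hT2, hdf]
      nlinarith [sq_nonneg (l1 e τ * e.2.1 + s ^ 2 * (l2 e τ * e.2.2))]
    have h2 : s ^ 2 * df e ^ 2 ≤ T2 e τ s * E := h1.trans (mul_le_mul_of_nonneg_left hEs hT0')
    rw [hc, div_le_iff₀ (by positivity)]
    calc df e ^ 2 = 1 * df e ^ 2 := by ring
      _ ≤ s ^ 2 * B ^ 2 * df e ^ 2 := mul_le_mul_of_nonneg_right hsB2 (sq_nonneg _)
      _ = B ^ 2 * (s ^ 2 * df e ^ 2) := by ring
      _ ≤ B ^ 2 * (T2 e τ s * E) := mul_le_mul_of_nonneg_left h2 (by positivity)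
      _ = T2 e τ s * (B ^ 2 * E) := by ring
  have hTp : 0 < T2 e τ s := lt_of_lt_of_le hc0 hlow
  refine ⟨hlow, ?_, ?_⟩
  · have h1 : (l1 e τ * e.2.1 + s ^ 2 * (l2 e τ * e.2.2)) ^ 2 ≤ T2 e τ s * E := by
      have h2 : (l1 e τ * e.2.1 + s ^ 2 * (l2 e τ * e.2.2)) ^ 2 ≤ T2 e τ s * (e.2.1 ^ 2 + s ^ 2 * e.2.2 ^ 2) := by
        rw [hT2]
        have h3 := mul_nonneg (sq_nonneg s) (sq_nonneg (l1 e τ * e.2.2 - l2 e τ * e.2.1))
        nlinarith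
      exact h2.trans (mul_le_mul_of_nonneg_left hEs hT0')
    have h2 : xs e τ s ^ 2 ≤ E / c := by
      unfold xs
      rw [div_pow, div_le_div_iff₀ (by positivity) hc0]
      calc (l1 e τ * e.2.1 + s ^ 2 * (l2 e τ * e.2.2)) ^ 2 * c ≤ T2 e τ s * E * T2 e τ s :=
            mul_le_mul h1 hlow hc0.le (by positivity)
        _ = E * T2 e τ s ^ 2 := by ring
    have h3 : |xs e τ s| ^ 2 = xs e τ s ^ 2 := sq_abs _
    nlinarith [sq_nonneg (|xs e τ s| - 1), abs_nonneg (xs e τ s)]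
  · intro hτ
    have h1 : |l1 e τ| ≤ |e.1.1| + 4 * |e.2.1| := by
      unfold l1
      refine (abs_add_le _ _).trans ?_
      rw [abs_mul]
      have := mul_le_mul_of_nonneg_right hτ (abs_nonneg e.2.1)
      linarith
    have h2 : |l2 e τ| ≤ |e.1.2| + 4 * |e.2.2| := by
      unfold l2
      refine (abs_add_le _ _).trans ?_
      rw [abs_mul]
      have := mul_le_mul_of_nonneg_right hτ (abs_nonneg e.2.2)
      linarith
    have h3 : l1 e τ ^ 2 ≤ (|e.1.1| + 4 * |e.2.1|) ^ 2 := by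
      rw [← sq_abs]
      exact pow_le_pow_left₀ (abs_nonneg _) h1 2
    have h4 : l2 e τ ^ 2 ≤ (|e.1.2| + 4 * |e.2.2|) ^ 2 := by
      rw [← sq_abs]
      exact pow_le_pow_left₀ (abs_nonneg _) h2 2
    have h5 : s ^ 2 * l2 e τ ^ 2 ≤ B ^ 2 * (|e.1.2| + 4 * |e.2.2|) ^ 2 := mul_le_mul hs2' h4 (sq_nonneg _) (by positivity)
    rw [hT2, hM]
    linarith

/-! ## the frame of `n` -/

private theorem tt0_h18 {k : ℤ × ℤ} (hk : 0 < k.1) : tt 0 k * k.1 = k.2 := by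
  have hkR : (k.1 : ℝ) ≠ 0 := by
    have : 0 < (k.1 : ℝ) := by exact_mod_cast hk
    exact this.ne'
  unfold tt uu
  rw [zero_mul, add_zero, div_mul_cancel₀ _ hkR]

private theorem frame_h18 {e : Fr} {n : ℤ × ℤ} (hn : Pr n) {s : ℝ} (hT : 0 < T2 e (sp n) s) :
    Tf (ac n (co n) (st s e)) = n.1 * √(T2 e (sp n) s) ∧ yf (ac n (co n) (st s e)) = s * df e / ((n.1 : ℝ) ^ 2 * T2 e (sp n) s) ∧
    (∀ k : ℤ × ℤ, 0 < k.1 → uu (xf (ac n (co n) (st s e))) (Pool.Agent.Helper60.LT.kp n k) = (k.1 : ℝ) / n.1 * (1 + (tt 0 k - sp n) * xs e (sp n) s)) ∧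
    (∀ k : ℤ × ℤ, 0 < k.1 → ((Pool.Agent.Helper60.LT.kp n k).2 : ℝ) = n.1 * k.1 * (tt 0 k - sp n)) := by
  obtain ⟨hc, hn1⟩ := hn
  have hdet := Pool.Agent.Helper60.LT.co_spec hc
  have hdetR : (n.1 : ℝ) * (co n).2 - n.2 * (co n).1 = 1 := by exact_mod_cast hdet
  have hn1R : 0 < (n.1 : ℝ) := by exact_mod_cast hn1
  obtain ⟨n', hn'⟩ : ∃ n', n' = co n := ⟨_, rfl⟩
  rw [← hn'] at hdetR ⊢
  obtain ⟨τ, hτ⟩ : ∃ τ, τ = sp n := ⟨_, rfl⟩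
  rw [← hτ] at hT ⊢
  have hn2 : (n.2 : ℝ) = n.1 * τ := by
    rw [hτ]
    unfold sp
    field_simp
  have hT2 : T2 e τ s = l1 e τ ^ 2 + s ^ 2 * l2 e τ ^ 2 := rfl
  have hv1 : (vf (st s e) n).1 = n.1 * l1 e τ := by
    simp only [vf, st, l1]
    rw [hn2]
    ring
  have hv2 : (vf (st s e) n).2 = n.1 * (s * l2 e τ) := by
    simp only [vf, st, l2]
    rw [hn2]
    ring
  have hsq : (vf (st s e) n).1 ^ 2 + (vf (st s e) n).2 ^ 2 = (n.1 : ℝ) ^ 2 * T2 e τ s := by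
    rw [hv1, hv2, hT2]
    ring
  have hdf : df (ac n n' (st s e)) = s * df e := by
    simp only [df, ac, vf, st]
    linear_combination (s * (e.1.1 * e.2.2 - e.1.2 * e.2.1)) * hdetR
  have hpos : 0 < (n.1 : ℝ) ^ 2 * T2 e τ s := by positivity
  refine ⟨?_, ?_, ?_, ?_⟩
  · show √((vf (st s e) n).1 ^ 2 + (vf (st s e) n).2 ^ 2) = _
    rw [hsq, Real.sqrt_mul (sq_nonneg _), Real.sqrt_sq hn1R.le]
  · show df (ac n n' (st s e)) / ((vf (st s e) n).1 ^ 2 + (vf (st s e) n).2 ^ 2) = _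
    rw [hsq, hdf]
  · intro k hk
    have hkR : 0 < (k.1 : ℝ) := by exact_mod_cast hk
    obtain ⟨δ, hδ⟩ : ∃ δ, δ = tt 0 k - τ := ⟨_, rfl⟩
    have hk2 : (k.2 : ℝ) = k.1 * (τ + δ) := by
      rw [hδ]
      linear_combination -tt0_h18 hk
    rw [← hδ]
    have hxf : xf (ac n n' (st s e)) * ((n.1 : ℝ) ^ 2 * T2 e τ s) = (vf (st s e) n).1 * (vf (st s e) n').1 + (vf (st s e) n).2 * (vf (st s e) n').2 := by
      show ((vf (st s e) n).1 * (vf (st s e) n').1 + (vf (st s e) n).2 * (vf (st s e) n').2) / ((vf (st s e) n).1 ^ 2 + (vf (st s e) n).2 ^ 2) * ((n.1 : ℝ) ^ 2 * T2 e τ s) = _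
      rw [hsq, div_mul_cancel₀ _ hpos.ne']
    have hkp : Pool.Agent.Helper60.LT.kp n k = (k.1 * n'.2 - k.2 * n'.1, n.1 * k.2 - n.2 * k.1) := by
      rw [hn']
      rfl
    have hxs : xs e τ s * T2 e τ s = l1 e τ * e.2.1 + s ^ 2 * (l2 e τ * e.2.2) := by
      unfold xs
      rw [div_mul_cancel₀ _ hT.ne']
    have hvk1 : ((k.1 : ℝ) * n'.2 - k.2 * n'.1) * (vf (st s e) n).1 + ((n.1 : ℝ) * k.2 - n.2 * k.1) * (vf (st s e) n').1 = k.1 * (l1 e τ + δ * e.2.1) := by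
      simp only [vf, st]
      unfold l1
      rw [hk2]
      linear_combination (k.1 * e.1.1 + k.1 * (τ + δ) * e.2.1) * hdetR
    have hvk2 : ((k.1 : ℝ) * n'.2 - k.2 * n'.1) * (vf (st s e) n).2 + ((n.1 : ℝ) * k.2 - n.2 * k.1) * (vf (st s e) n').2 = k.1 * (s * (l2 e τ + δ * e.2.2)) := by
      simp only [vf, st]
      unfold l2
      rw [hk2]
      linear_combination (k.1 * (s * e.1.2) + k.1 * (τ + δ) * (s * e.2.2)) * hdetR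
    have hmain : uu (xf (ac n n' (st s e))) (Pool.Agent.Helper60.LT.kp n k) * ((n.1 : ℝ) ^ 2 * T2 e τ s) = (k.1 : ℝ) / n.1 * (1 + δ * xs e τ s) * ((n.1 : ℝ) ^ 2 * T2 e τ s) := by
      have e1 : uu (xf (ac n n' (st s e))) (Pool.Agent.Helper60.LT.kp n k) * ((n.1 : ℝ) ^ 2 * T2 e τ s) =
          (((k.1 : ℝ) * n'.2 - k.2 * n'.1) * (vf (st s e) n).1 + ((n.1 : ℝ) * k.2 - n.2 * k.1) * (vf (st s e) n').1) * (vf (st s e) n).1 +
          (((k.1 : ℝ) * n'.2 - k.2 * n'.1) * (vf (st s e) n).2 + ((n.1 : ℝ) * k.2 - n.2 * k.1) * (vf (st s e) n').2) * (vf (st s e) n).2 := by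
        unfold uu
        rw [hkp]
        push_cast
        linear_combination (-(((k.1 : ℝ) * n'.2 - k.2 * n'.1))) * hsq + ((n.1 : ℝ) * k.2 - n.2 * k.1) * hxf
      rw [e1, hvk1, hvk2, hv1, hv2]
      have e2 : (k.1 : ℝ) / n.1 * (1 + δ * xs e τ s) * ((n.1 : ℝ) ^ 2 * T2 e τ s) = (k.1 : ℝ) * n.1 * (T2 e τ s + δ * (xs e τ s * T2 e τ s)) := by
        field_simp
      rw [e2, hxs, hT2]
      ring
    exact mul_right_cancel₀ hpos.ne' hmain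
  · intro k hk
    have hkR : 0 < (k.1 : ℝ) := by exact_mod_cast hk
    have hkp : (Pool.Agent.Helper60.LT.kp n k).2 = n.1 * k.2 - n.2 * k.1 := rfl
    rw [hkp]
    push_cast
    linear_combination (-(n.1 : ℝ)) * tt0_h18 hk - k.1 * hn2

private theorem nm_frame_h18 {g : Fr} (hg : 0 < Tf g) {k : ℤ × ℤ} (hu : 0 < uu (xf g) k) :
    nm (vf g k) = Tf g * (uu (xf g) k * √(1 + (yf g * tt (xf g) k) ^ 2)) := by
  obtain ⟨θ, -, hθ⟩ := Pool.Agent.Helper60.LT.fr_surj hg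
  have h1 := Pool.Agent.Helper60.LT.vf_fr nm_hom_h3 (θ := θ) (y := yf g) hg hu
  rw [← hθ] at h1
  rw [h1]
  unfold Pool.Agent.Helper60.LT.pf
  rw [sl_nm_h3]

/-! ## numbers -/

private theorem cn_h18 {N : ℕ} {k : ℤ × ℤ} (hk : k ∈ cn N) : 0 < k.1 ∧ (N : ℝ) ≤ k.1 ∧ (k.1 : ℝ) ≤ 2 * N ∧ |tt 0 k| ≤ 1 := by
  unfold cn at hk
  rw [Finset.mem_filter] at hk
  obtain ⟨h1, h2, h3⟩ := hk
  unfold sqa at h1
  rw [Finset.mem_filter] at h1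
  obtain ⟨-, h4, h5, h6⟩ := h1
  have h7 : 0 < k.1 := by omega
  have h8 : (N : ℤ) ≤ k.1 := by
    rcases h4 with h | h
    · rwa [abs_of_pos h7] at h
    · exact h.trans (abs_le.2 ⟨by omega, h3⟩)
  have h9 : k.1 ≤ 2 * (N : ℤ) := by
    rw [abs_of_pos h7] at h5
    exact h5.le
  have hkR : 0 < (k.1 : ℝ) := by exact_mod_cast h7
  refine ⟨h7, by exact_mod_cast h8, by exact_mod_cast h9, ?_⟩
  have e := tt0_h18 h7
  have h10 : |(k.2 : ℝ)| ≤ k.1 := by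
    have : |k.2| ≤ k.1 := abs_le.2 ⟨by omega, h3⟩
    exact_mod_cast this
  rw [← e, abs_mul, abs_of_pos hkR] at h10
  exact le_of_mul_le_mul_right (by linarith) hkR

private theorem num_h18 {B β d ρ μ X ν U r s R y : ℝ} (hB : 1 ≤ B) (hβ : 1 ≤ β) (hd : 0 < d) (hρ : 0 < ρ) (hR1 : ρ ≤ R) (hR2 : R ≤ μ) (hX : 1 ≤ X) (hν : 1 ≤ ν)
    (hU : 1 ≤ U) (h1 : U ≤ β * ν) (h2 : ν ≤ β * U) (hr : r ∈ Icc (X / B) (B * X)) (hs : s ∈ Icc B⁻¹ B) (hy : y ∈ Icc (1 / (β * U ^ 2)) (β / U ^ 2)) :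
    0 < r ∧ 0 < s ∧ 0 < y ∧ r * (ν * R) * (s * d / (ν ^ 2 * R ^ 2)) ^ 2 ≤ B ^ 3 * X * d ^ 2 / (ν ^ 3 * ρ ^ 3) ∧
      X * d ^ 2 / (B ^ 3 * ν ^ 3 * μ ^ 3) ≤ r * (ν * R) * (s * d / (ν ^ 2 * R ^ 2)) ^ 2 ∧ 1 / (β ^ 3 * ν ^ 2) ≤ y ∧ y ≤ β ^ 3 / ν ^ 2 ∧
      s * d / (ν ^ 2 * R ^ 2) ≤ B * d / (ν ^ 2 * ρ ^ 2) := by
  have hB0 : 0 < B := by linarith
  have hβ0 : 0 < β := by linarith
  have hX0 : 0 < X := by linarith
  have hν0 : 0 < ν := by linarith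
  have hU0 : 0 < U := by linarith
  have hR0 : 0 < R := by linarith
  have hμ0 : 0 < μ := by linarith
  have hs0 : 0 < s := lt_of_lt_of_le (inv_pos.2 hB0) hs.1
  have hr0 : 0 < r := lt_of_lt_of_le (by positivity) hr.1
  have hy0 : 0 < y := lt_of_lt_of_le (by positivity) hy.1
  have e : r * (ν * R) * (s * d / (ν ^ 2 * R ^ 2)) ^ 2 = r * s ^ 2 * d ^ 2 / (ν ^ 3 * R ^ 3) := by
    field_simp
  have hs1 : 1 / B ^ 2 ≤ s ^ 2 := by
    have h3 : 1 / B ≤ s := by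
      rw [one_div]
      exact hs.1
    have h4 := pow_le_pow_left₀ (by positivity) h3 2
    rwa [div_pow, one_pow] at h4
  have hs2 : s ^ 2 ≤ B ^ 2 := pow_le_pow_left₀ hs0.le hs.2 2
  have hR3 : ρ ^ 3 ≤ R ^ 3 := pow_le_pow_left₀ hρ.le hR1 3
  have hR4 : R ^ 3 ≤ μ ^ 3 := pow_le_pow_left₀ hR0.le hR2 3
  have hU2 : U ^ 2 ≤ (β * ν) ^ 2 := pow_le_pow_left₀ hU0.le h1 2
  have hν2 : ν ^ 2 ≤ (β * U) ^ 2 := pow_le_pow_left₀ hν0.le h2 2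
  refine ⟨hr0, hs0, hy0, ?_, ?_, ?_, ?_, ?_⟩
  · rw [e]
    refine div_le_div₀ (by positivity) ?_ (by positivity) (mul_le_mul_of_nonneg_left hR3 (by positivity))
    have h3 : r * s ^ 2 ≤ (B * X) * B ^ 2 := mul_le_mul hr.2 hs2 (by positivity) (by positivity)
    calc r * s ^ 2 * d ^ 2 ≤ (B * X) * B ^ 2 * d ^ 2 := mul_le_mul_of_nonneg_right h3 (by positivity)
      _ = B ^ 3 * X * d ^ 2 := by ring
  · rw [e]
    have h3 : X / B * (1 / B ^ 2) ≤ r * s ^ 2 := mul_le_mul hr.1 hs1 (by positivity) hr0.le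
    calc X * d ^ 2 / (B ^ 3 * ν ^ 3 * μ ^ 3) = X / B * (1 / B ^ 2) * d ^ 2 / (ν ^ 3 * μ ^ 3) := by
          field_simp
      _ ≤ r * s ^ 2 * d ^ 2 / (ν ^ 3 * R ^ 3) :=
          div_le_div₀ (by positivity) (mul_le_mul_of_nonneg_right h3 (by positivity)) (by positivity) (mul_le_mul_of_nonneg_left hR4 (by positivity))
  · refine le_trans ?_ hy.1
    refine div_le_div_of_nonneg_left (by norm_num) (by positivity) ?_
    calc β * U ^ 2 ≤ β * (β * ν) ^ 2 := mul_le_mul_of_nonneg_left hU2 hβ0.le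
      _ = β ^ 3 * ν ^ 2 := by ring
  · refine hy.2.trans ?_
    rw [div_le_div_iff₀ (by positivity) (by positivity)]
    calc β * ν ^ 2 ≤ β * (β * U) ^ 2 := mul_le_mul_of_nonneg_left hν2 hβ0.le
      _ = β ^ 3 * U ^ 2 := by ring
  · refine div_le_div₀ (by positivity) (mul_le_mul_of_nonneg_right hs.2 hd.le) (by positivity) ?_
    exact mul_le_mul_of_nonneg_left (pow_le_pow_left₀ hρ.le hR1 2) (by positivity)

private theorem num1_h18 {B β d ρ X N ν A y₀ y t₂ : ℝ} (hB : 1 ≤ B) (hβ : 1 ≤ β) (hd : 0 < d) (hρ : 0 < ρ) (hX : 1 ≤ X) (hN : 1 ≤ N) (hν : 1 ≤ ν)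
    (hA : A ≤ B ^ 3 * X * d ^ 2 / (ν ^ 3 * ρ ^ 3)) (hy₀0 : 0 ≤ y₀) (hy₀ : y₀ ≤ B * d / (ν ^ 2 * ρ ^ 2)) (hy0 : 0 ≤ y) (hy : y ≤ β ^ 3 / ν ^ 2)
    (ht : t₂ ^ 4 = (10 / 9) ^ 4 * ν ^ 8 * β / (X * N)) :
    (A * y₀ ^ 2 + A * y ^ 2) * t₂ ^ 4 * (11 / 5 * N / ν) ≤ 11 / 5 * (10 / 9) ^ 4 * β * (B ^ 3 * d ^ 2 / ρ ^ 3) * (B ^ 2 * d ^ 2 / ρ ^ 4 + β ^ 6) := by
  have hB0 : 0 < B := by linarith
  have hβ0 : 0 < β := by linarith
  have hX0 : 0 < X := by linarith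
  have hν0 : 0 < ν := by linarith
  have hN0 : 0 < N := by linarith
  have h1 : y₀ ^ 2 ≤ (B * d / (ν ^ 2 * ρ ^ 2)) ^ 2 := pow_le_pow_left₀ hy₀0 hy₀ 2
  have h2 : y ^ 2 ≤ (β ^ 3 / ν ^ 2) ^ 2 := pow_le_pow_left₀ hy0 hy 2
  have h3 : A * y₀ ^ 2 + A * y ^ 2 ≤ B ^ 3 * X * d ^ 2 / (ν ^ 3 * ρ ^ 3) * ((B * d / (ν ^ 2 * ρ ^ 2)) ^ 2 + (β ^ 3 / ν ^ 2) ^ 2) := by
    rw [← mul_add]
    exact mul_le_mul hA (add_le_add h1 h2) (by positivity) (by positivity)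
  calc (A * y₀ ^ 2 + A * y ^ 2) * t₂ ^ 4 * (11 / 5 * N / ν) ≤
      B ^ 3 * X * d ^ 2 / (ν ^ 3 * ρ ^ 3) * ((B * d / (ν ^ 2 * ρ ^ 2)) ^ 2 + (β ^ 3 / ν ^ 2) ^ 2) * t₂ ^ 4 * (11 / 5 * N / ν) := by
        refine mul_le_mul_of_nonneg_right (mul_le_mul_of_nonneg_right h3 (by positivity)) (by positivity)
    _ = 11 / 5 * (10 / 9) ^ 4 * β * (B ^ 3 * d ^ 2 / ρ ^ 3) * (B ^ 2 * d ^ 2 / ρ ^ 4 + β ^ 6) := by
        rw [ht]
        field_simp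

private theorem num2_h18 {B β d ρ μ X N ν A y u : ℝ} (hB : 1 ≤ B) (hβ : 1 ≤ β) (hd : 0 < d) (hρ : 0 < ρ) (hμ : 0 < μ) (hX : 1 ≤ X) (hN : 1 ≤ N) (hν : 1 ≤ ν)
    (hA : A ≤ B ^ 3 * X * d ^ 2 / (ν ^ 3 * ρ ^ 3)) (hA' : X * d ^ 2 / (B ^ 3 * ν ^ 3 * μ ^ 3) ≤ A) (hy0 : 0 < y) (hy : y ≤ β ^ 3 / ν ^ 2)
    (hy' : 1 / (β ^ 3 * ν ^ 2) ≤ y) (hu : u ≤ 11 / 5 * N / ν) (hu' : 9 / 10 * N / ν ≤ u) :
    X * N ≤ 10 / 9 * (B ^ 3 * μ ^ 3 * β ^ 6 / d ^ 2) * (A / y ^ 2 * u) ∧ A / y ^ 2 * u ≤ 11 / 5 * (B ^ 3 * d ^ 2 * β ^ 6 / ρ ^ 3) * (X * N) := by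
  have hB0 : 0 < B := by linarith
  have hβ0 : 0 < β := by linarith
  have hX0 : 0 < X := by linarith
  have hν0 : 0 < ν := by linarith
  have hN0 : 0 < N := by linarith
  have hA0 : 0 < A := lt_of_lt_of_le (by positivity) hA'
  have hu0 : 0 < u := lt_of_lt_of_le (by positivity) hu'
  have h1 : y ^ 2 ≤ (β ^ 3 / ν ^ 2) ^ 2 := pow_le_pow_left₀ hy0.le hy 2
  have h2 : (1 / (β ^ 3 * ν ^ 2)) ^ 2 ≤ y ^ 2 := pow_le_pow_left₀ (by positivity) hy' 2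
  constructor
  · have h3 : X * d ^ 2 / (B ^ 3 * ν ^ 3 * μ ^ 3) / (β ^ 3 / ν ^ 2) ^ 2 * (9 / 10 * N / ν) ≤ A / y ^ 2 * u :=
      mul_le_mul (div_le_div₀ hA0.le hA' (by positivity) h1) hu' (by positivity) (by positivity)
    calc X * N = 10 / 9 * (B ^ 3 * μ ^ 3 * β ^ 6 / d ^ 2) * (X * d ^ 2 / (B ^ 3 * ν ^ 3 * μ ^ 3) / (β ^ 3 / ν ^ 2) ^ 2 * (9 / 10 * N / ν)) := by
          field_simp
      _ ≤ 10 / 9 * (B ^ 3 * μ ^ 3 * β ^ 6 / d ^ 2) * (A / y ^ 2 * u) := mul_le_mul_of_nonneg_left h3 (by positivity)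
  · have h3 : A / y ^ 2 * u ≤ B ^ 3 * X * d ^ 2 / (ν ^ 3 * ρ ^ 3) / (1 / (β ^ 3 * ν ^ 2)) ^ 2 * (11 / 5 * N / ν) :=
      mul_le_mul (div_le_div₀ (by positivity) hA (by positivity) h2) hu hu0.le (by positivity)
    refine h3.trans (le_of_eq ?_)
    field_simp

/-! ## the cut -/

private theorem cut_h18 {β : ℝ} {n : ℤ × ℤ} (hn : IsCoprime n.1 n.2) {I Sg : Finset (ℤ × ℤ)} (hC : Cut β I) (hI : ∀ k ∈ I, Pool.Agent.Helper60.LT.kp n k ∈ Sg) (b : ℤ × ℤ → ℂ) :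
    m12 (I.image (Pool.Agent.Helper60.LT.kp n)) b ≤ β ^ 12 * m12 Sg b ∧
      ∀ a : ℤ × ℤ → ℂ, m12 (I.image (Pool.Agent.Helper60.LT.kp n)) a = m12 I (fun k => a (Pool.Agent.Helper60.LT.kp n k)) := by
  classical
  have hdet := Pool.Agent.Helper60.LT.co_spec hn
  have hkp : ∀ k, Pool.Agent.Helper60.LT.kp n k = (k.1 * (co n).2 - k.2 * (co n).1, n.1 * k.2 - n.2 * k.1) := fun k => rfl
  obtain ⟨n', hn'⟩ : ∃ n', n' = co n := ⟨_, rfl⟩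
  rw [← hn'] at hdet
  simp only [← hn'] at hkp
  let ψ : ℤ × ℤ → ℤ × ℤ := fun k' => (k'.1 * n.1 + k'.2 * n'.1, k'.1 * n.2 + k'.2 * n'.2)
  have hφψ : ∀ k, ψ (Pool.Agent.Helper60.LT.kp n k) = k := by
    intro k
    rw [hkp]
    ext
    · show (k.1 * n'.2 - k.2 * n'.1) * n.1 + (n.1 * k.2 - n.2 * k.1) * n'.1 = k.1
      linear_combination k.1 * hdet
    · show (k.1 * n'.2 - k.2 * n'.1) * n.2 + (n.1 * k.2 - n.2 * k.1) * n'.2 = k.2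
      linear_combination k.2 * hdet
  have hψφ : ∀ k, Pool.Agent.Helper60.LT.kp n (ψ k) = k := by
    intro k
    rw [hkp]
    ext
    · show (k.1 * n.1 + k.2 * n'.1) * n'.2 - (k.1 * n.2 + k.2 * n'.2) * n'.1 = k.1
      linear_combination k.1 * hdet
    · show n.1 * (k.1 * n.2 + k.2 * n'.2) - n.2 * (k.1 * n.1 + k.2 * n'.1) = k.2
      linear_combination k.2 * hdet
  have hadd : ∀ k l, ψ (k + l) = ψ k + ψ l := by
    intro k l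
    ext
    · show (k.1 + l.1) * n.1 + (k.2 + l.2) * n'.1 = (k.1 * n.1 + k.2 * n'.1) + (l.1 * n.1 + l.2 * n'.1)
      ring
    · show (k.1 + l.1) * n.2 + (k.2 + l.2) * n'.2 = (k.1 * n.2 + k.2 * n'.2) + (l.1 * n.2 + l.2 * n'.2)
      ring
  have hadd' : ∀ k l, Pool.Agent.Helper60.LT.kp n (k + l) = Pool.Agent.Helper60.LT.kp n k + Pool.Agent.Helper60.LT.kp n l := by
    intro k l
    rw [hkp, hkp, hkp]
    ext
    · show (k.1 + l.1) * n'.2 - (k.2 + l.2) * n'.1 = (k.1 * n'.2 - k.2 * n'.1) + (l.1 * n'.2 - l.2 * n'.1)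
      ring
    · show n.1 * (k.2 + l.2) - n.2 * (k.1 + l.1) = (n.1 * k.2 - n.2 * k.1) + (n.1 * l.2 - n.2 * l.1)
      ring
  have hinj : Function.Injective ψ := Function.LeftInverse.injective hψφ
  have hinj' : Function.Injective (Pool.Agent.Helper60.LT.kp n) := Function.LeftInverse.injective hφψ
  have him : ∀ a : ℤ × ℤ → ℂ, m12 (I.image (Pool.Agent.Helper60.LT.kp n)) a = m12 I (fun k => a (Pool.Agent.Helper60.LT.kp n k)) :=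
    fun a => Pool.Agent.Helper60.LT.m12_image _ hadd' hinj' I a
  refine ⟨?_, him⟩
  have hsub : I ⊆ Sg.image ψ := by
    intro k hk
    rw [Finset.mem_image]
    exact ⟨_, hI k hk, hφψ k⟩
  have hcut := Pool.Agent.Helper60.LT.m12_cut hC hsub (fun k => b (Pool.Agent.Helper60.LT.kp n k))
  rw [Pool.Agent.Helper60.LT.m12_image ψ hadd hinj] at hcut
  simp only [hψφ] at hcut
  rw [him]
  exact hcut

/-! ## the theorem -/

/-- C1: from a sector near `n` to the state of `n` at a frozen height `y` -/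
theorem to_state {e : Fr} (he : 0 < df e) {B β : ℝ} (hB : 1 ≤ B) (hβ : 1 ≤ β) : ∃ C L K₀ : ℝ, 1 ≤ C ∧ 1 ≤ L ∧ 1 ≤ K₀ ∧
    ∀ (X U S y r s : ℝ) (N : ℕ) (n : ℤ × ℤ) (I : Finset (ℤ × ℤ)), 1 ≤ X → 1 ≤ N → K₀ ≤ X * N → 1 ≤ U → 0 < S → S ≤ 3 → Pr n → U ≤ β * n.1 → (n.1 : ℝ) ≤ β * U →
      Cut β I → I ⊆ cn N → (∀ k ∈ I, (n.1 : ℝ) ^ 2 * |tt 0 k - sp n| ≤ 9 / 10 * S) → (∀ k ∈ I, |tt 0 k - sp n| ^ 4 * (X * N) ≤ β) →
      s ∈ Icc B⁻¹ B → r ∈ Icc (X / B) (B * X) → y ∈ Icc (1 / (β * U ^ 2)) (β / U ^ 2) →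
        ENNReal.ofReal (mr I r (st s e)) ≤ ENNReal.ofReal C * PP nm L S (X * N) (fr 0 y (r * yn e n s / y ^ 2) (xn e n s)) := by
  classical
  obtain ⟨c, M, q, hc, hM, hq, hcon⟩ := consts_h18 he hB
  obtain ⟨ρ, hρ⟩ : ∃ ρ, ρ = √c := ⟨_, rfl⟩
  obtain ⟨μ, hμ⟩ : ∃ μ, μ = √M := ⟨_, rfl⟩
  have hB0 : 0 < B := by linarith
  have hβ0 : 0 < β := by linarith
  have hρ0 : 0 < ρ := by
    rw [hρ]
    exact Real.sqrt_pos.2 hc
  have hμ0 : 0 < μ := by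
    rw [hμ]
    exact Real.sqrt_pos.2 hM
  obtain ⟨B', hB'⟩ : ∃ B', B' = 11 / 5 * (10 / 9) ^ 4 * β * (B ^ 3 * df e ^ 2 / ρ ^ 3) * (B ^ 2 * df e ^ 2 / ρ ^ 4 + β ^ 6) := ⟨_, rfl⟩
  obtain ⟨L, hL⟩ : ∃ L, L = 1 + 10 / 9 * (B ^ 3 * μ ^ 3 * β ^ 6 / df e ^ 2) + 11 / 5 * (B ^ 3 * df e ^ 2 * β ^ 6 / ρ ^ 3) := ⟨_, rfl⟩
  have hB'0 : 0 ≤ B' := by
    rw [hB']
    positivity
  have hLa : 0 ≤ 10 / 9 * (B ^ 3 * μ ^ 3 * β ^ 6 / df e ^ 2) := by positivity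
  have hLb : 0 ≤ 11 / 5 * (B ^ 3 * df e ^ 2 * β ^ 6 / ρ ^ 3) := by positivity
  have hL1 : 1 ≤ L := by
    rw [hL]
    linarith
  have hexp : 1 ≤ exp (3800 * B') := Real.one_le_exp (by positivity)
  refine ⟨exp (3800 * B') ^ 12 * β ^ 12, L, β * (10 * q) ^ 4, ?_, hL1, ?_, ?_⟩
  · exact one_le_mul_of_one_le_of_one_le (one_le_pow₀ hexp) (one_le_pow₀ hβ)
  · exact one_le_mul_of_one_le_of_one_le hβ (one_le_pow₀ (by linarith))
  intro X U S y r s N n I hX hN hK hU hS hS3 hn hUn hnU hcut hI hδS hδ4 hs hr hy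
  obtain rfl | ⟨k₀, hk₀⟩ := I.eq_empty_or_nonempty
  · have h0 : mr ∅ r (st s e) = 0 := by
      unfold mr m12 tp
      simp
    rw [h0, ENNReal.ofReal_zero]
    exact bot_le
  have hNR : 1 ≤ (N : ℝ) := by exact_mod_cast hN
  have hn1 : 1 ≤ (n.1 : ℝ) := by exact_mod_cast hn.2
  have hn0 : 0 < (n.1 : ℝ) := by linarith
  have hX0 : 0 < X := by linarith
  have hN0 : 0 < (N : ℝ) := by linarith
  have hXN : 0 < X * N := by positivity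
  -- smallness of the distances
  have hδq : ∀ k ∈ I, |tt 0 k - sp n| * (10 * q) ≤ 1 := by
    intro k hk
    have h1 := hδ4 k hk
    have h2 : |tt 0 k - sp n| ^ 4 * (β * (10 * q) ^ 4) ≤ β := (mul_le_mul_of_nonneg_left hK (by positivity)).trans h1
    have h3 : (|tt 0 k - sp n| * (10 * q)) ^ 4 ≤ 1 := by
      have h4 : β * (|tt 0 k - sp n| * (10 * q)) ^ 4 ≤ β * 1 := by
        calc β * (|tt 0 k - sp n| * (10 * q)) ^ 4 = |tt 0 k - sp n| ^ 4 * (β * (10 * q) ^ 4) := by ring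
          _ ≤ β * 1 := by linarith
      exact le_of_mul_le_mul_left h4 hβ0
    exact (pow_le_one_iff_of_nonneg (by positivity) (by norm_num)).1 h3
  have hδ1 : ∀ k ∈ I, |tt 0 k - sp n| ≤ 1 := by
    intro k hk
    have h1 := hδq k hk
    have h2 : |tt 0 k - sp n| * 1 ≤ |tt 0 k - sp n| * (10 * q) := mul_le_mul_of_nonneg_left (by linarith) (abs_nonneg _)
    linarith
  have hsp : |sp n| ≤ 4 := by
    have h1 := hδ1 k₀ hk₀
    have h2 := (cn_h18 (hI hk₀)).2.2.2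
    have h3 : sp n = tt 0 k₀ - (tt 0 k₀ - sp n) := by ring
    rw [h3]
    exact (abs_sub _ _).trans (by linarith)
  obtain ⟨hQ1, hxs, hQ2⟩ := hcon s hs (sp n)
  have hQ3 := hQ2 hsp
  have hQ0 : 0 < T2 e (sp n) s := lt_of_lt_of_le hc hQ1
  obtain ⟨R, hR⟩ : ∃ R, R = √(T2 e (sp n) s) := ⟨_, rfl⟩
  have hRQ : R ^ 2 = T2 e (sp n) s := by
    rw [hR]
    exact Real.sq_sqrt hQ0.le
  have hR1 : ρ ≤ R := by
    rw [hρ, hR]
    exact Real.sqrt_le_sqrt hQ1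
  have hR2 : R ≤ μ := by
    rw [hμ, hR]
    exact Real.sqrt_le_sqrt hQ3
  have hR0 : 0 < R := lt_of_lt_of_le hρ0 hR1
  obtain ⟨hTf, hyf, huu, hk2⟩ := frame_h18 hn hQ0
  obtain ⟨hr0, hs0, hy0, hA1, hA2, hyl, hyu, hy₀u⟩ := num_h18 hB hβ he hρ0 hR1 hR2 hX hn1 hU hUn hnU hr hs hy
  rw [← hR] at hTf
  rw [← hRQ] at hyf
  have hyn : yn e n s = n.1 * R * (s * df e / ((n.1 : ℝ) ^ 2 * R ^ 2)) ^ 2 := by
    unfold yn
    rw [hTf, hyf]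
  obtain ⟨y₀, hy₀⟩ : ∃ y₀, y₀ = s * df e / ((n.1 : ℝ) ^ 2 * R ^ 2) := ⟨_, rfl⟩
  rw [← hy₀] at hyf hyn hA1 hA2 hy₀u
  have hy₀0 : 0 < y₀ := by
    rw [hy₀]
    positivity
  obtain ⟨A, hA⟩ : ∃ A, A = r * (n.1 * R) * y₀ ^ 2 := ⟨_, rfl⟩
  rw [← hA] at hA1 hA2
  have hryn : r * yn e n s = A := by
    rw [hyn, hA]
    ring
  have hA0 : 0 < A := by
    rw [hA]
    positivity
  obtain ⟨g, hg⟩ : ∃ g, g = ac n (co n) (st s e) := ⟨_, rfl⟩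
  have hxn : xn e n s = xf g := by
    rw [hg]
    rfl
  rw [← hg] at hTf hyf huu
  have hT0 : 0 < Tf g := by
    rw [hTf]
    positivity
  have hT' : 0 < A / y ^ 2 := by positivity
  rw [hryn, hxn]
  obtain ⟨hF1, hF2, hF3, -⟩ := Pool.Agent.Helper60.LT.fr_coord (θ := 0) (y := y) (x := xf g) hT'
  -- sizes of the coordinates
  have hu : ∀ k ∈ I, 9 / 10 * ((k.1 : ℝ) / n.1) ≤ uu (xf g) (Pool.Agent.Helper60.LT.kp n k) ∧ uu (xf g) (Pool.Agent.Helper60.LT.kp n k) ≤ 11 / 10 * ((k.1 : ℝ) / n.1) := by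
    intro k hk
    obtain ⟨hk1, -, -, -⟩ := cn_h18 (hI hk)
    have hkR : 0 < (k.1 : ℝ) := by exact_mod_cast hk1
    have hkn : 0 < (k.1 : ℝ) / n.1 := by positivity
    rw [huu k hk1]
    have h1 : |(tt 0 k - sp n) * xs e (sp n) s| ≤ 1 / 10 := by
      rw [abs_mul]
      have h2 : |tt 0 k - sp n| * |xs e (sp n) s| ≤ |tt 0 k - sp n| * q := mul_le_mul_of_nonneg_left hxs (abs_nonneg _)
      have h3 := hδq k hk
      linarith
    obtain ⟨h4, h5⟩ := abs_le.1 h1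
    constructor
    · rw [mul_comm (9 / 10 : ℝ)]
      exact mul_le_mul_of_nonneg_left (by linarith) hkn.le
    · rw [mul_comm (11 / 10 : ℝ)]
      exact mul_le_mul_of_nonneg_left (by linarith) hkn.le
  have hu0 : ∀ k ∈ I, 0 < uu (xf g) (Pool.Agent.Helper60.LT.kp n k) := by
    intro k hk
    obtain ⟨hk1, -, -, -⟩ := cn_h18 (hI hk)
    have hkR : 0 < (k.1 : ℝ) := by exact_mod_cast hk1
    exact lt_of_lt_of_le (by positivity) (hu k hk).1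
  have hu' : ∀ k ∈ I, 9 / 10 * N / n.1 ≤ uu (xf g) (Pool.Agent.Helper60.LT.kp n k) ∧ uu (xf g) (Pool.Agent.Helper60.LT.kp n k) ≤ 11 / 5 * N / n.1 := by
    intro k hk
    obtain ⟨-, hkN, hkN', -⟩ := cn_h18 (hI hk)
    obtain ⟨h1, h2⟩ := hu k hk
    constructor
    · refine le_trans ?_ h1
      rw [mul_div_assoc]
      exact mul_le_mul_of_nonneg_left (div_le_div_of_nonneg_right hkN hn0.le) (by norm_num)
    · refine h2.trans ?_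
      have h3 : (k.1 : ℝ) / n.1 ≤ 2 * N / n.1 := div_le_div_of_nonneg_right hkN' hn0.le
      calc 11 / 10 * ((k.1 : ℝ) / n.1) ≤ 11 / 10 * (2 * N / n.1) := mul_le_mul_of_nonneg_left h3 (by norm_num)
        _ = 11 / 5 * N / n.1 := by ring
  obtain ⟨δ₂, hδ₂⟩ : ∃ δ₂, δ₂ = √(√(β / (X * N))) := ⟨_, rfl⟩
  have hδ₂0 : 0 ≤ δ₂ := by
    rw [hδ₂]
    exact Real.sqrt_nonneg _
  have hδ₂4 : δ₂ ^ 4 = β / (X * N) := by
    rw [show (4 : ℕ) = 2 * 2 from rfl, pow_mul, hδ₂, Real.sq_sqrt (Real.sqrt_nonneg _), Real.sq_sqrt (by positivity)]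
  have hδδ : ∀ k ∈ I, |tt 0 k - sp n| ≤ δ₂ := by
    intro k hk
    have h1 : |tt 0 k - sp n| ^ 4 ≤ δ₂ ^ 4 := by
      rw [hδ₂4, le_div_iff₀ hXN]
      exact hδ4 k hk
    exact (pow_le_pow_iff_left₀ (abs_nonneg _) hδ₂0 (by norm_num)).1 h1
  have hj : ∀ k ∈ I, |((Pool.Agent.Helper60.LT.kp n k).2 : ℝ)| ≤ 10 / 9 * (n.1 : ℝ) ^ 2 * |tt 0 k - sp n| * uu (xf g) (Pool.Agent.Helper60.LT.kp n k) := by
    intro k hk
    obtain ⟨hk1, -, -, -⟩ := cn_h18 (hI hk)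
    have hkR : 0 < (k.1 : ℝ) := by exact_mod_cast hk1
    rw [hk2 k hk1, abs_mul, abs_mul, abs_of_pos hn0, abs_of_pos hkR]
    have h1 := (hu k hk).1
    have h2 : 0 ≤ 10 / 9 * (n.1 : ℝ) ^ 2 * |tt 0 k - sp n| := by positivity
    calc (n.1 : ℝ) * k.1 * |tt 0 k - sp n| = 10 / 9 * (n.1 : ℝ) ^ 2 * |tt 0 k - sp n| * (9 / 10 * ((k.1 : ℝ) / n.1)) := by
          field_simp
      _ ≤ _ := mul_le_mul_of_nonneg_left h1 h2
  -- membership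
  have hmem : ∀ k ∈ I, Pool.Agent.Helper60.LT.kp n k ∈ Pool.Agent.Helper60.LT.st L S (X * N) (A / y ^ 2) (xf g) := by
    intro k hk
    rw [Pool.Agent.Helper60.LT.mem_st hT' (by linarith) hXN hS.le]
    obtain ⟨h1, h2⟩ := num2_h18 hB hβ he hρ0 hμ0 hX hNR hn1 hA1 hA2 hy0 hyu hyl (hu' k hk).2 (hu' k hk).1
    have h3 := hu0 k hk
    have h4 : 0 ≤ A / y ^ 2 * uu (xf g) (Pool.Agent.Helper60.LT.kp n k) := by positivity
    refine ⟨?_, ?_, ?_⟩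
    · refine h1.trans (mul_le_mul_of_nonneg_right ?_ h4)
      rw [hL]
      linarith
    · refine h2.trans (mul_le_mul_of_nonneg_right ?_ hXN.le)
      rw [hL]
      linarith
    · refine (hj k hk).trans (mul_le_mul_of_nonneg_right ?_ h3.le)
      have := hδS k hk
      nlinarith
  -- the moments
  obtain ⟨hcutb, him⟩ := cut_h18 hn.1 hcut hmem (fun k => ee (nm (vf (fr 0 y (A / y ^ 2) (xf g)) k)))
  have hvf : ∀ k, vf (st s e) k = vf g (Pool.Agent.Helper60.LT.kp n k) := by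
    intro k
    have hdet := Pool.Agent.Helper60.LT.co_spec hn.1
    have hdetR : (n.1 : ℝ) * (co n).2 - n.2 * (co n).1 = 1 := by exact_mod_cast hdet
    rw [hg]
    ext
    · show (k.1 : ℝ) * (st s e).1.1 + k.2 * (st s e).2.1 = ((k.1 * (co n).2 - k.2 * (co n).1 : ℤ) : ℝ) * (n.1 * (st s e).1.1 + n.2 * (st s e).2.1) +
        ((n.1 * k.2 - n.2 * k.1 : ℤ) : ℝ) * ((co n).1 * (st s e).1.1 + (co n).2 * (st s e).2.1)
      push_cast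
      linear_combination (-(k.1 * (st s e).1.1 + k.2 * (st s e).2.1)) * hdetR
    · show (k.1 : ℝ) * (st s e).1.2 + k.2 * (st s e).2.2 = ((k.1 * (co n).2 - k.2 * (co n).1 : ℤ) : ℝ) * (n.1 * (st s e).1.2 + n.2 * (st s e).2.2) +
        ((n.1 * k.2 - n.2 * k.1 : ℤ) : ℝ) * ((co n).1 * (st s e).1.2 + (co n).2 * (st s e).2.2)
      push_cast
      linear_combination (-(k.1 * (st s e).1.2 + k.2 * (st s e).2.2)) * hdetR
  have huI : ∀ k' ∈ I.image (Pool.Agent.Helper60.LT.kp n), 0 < uu (xf g) k' ∧ uu (xf g) k' ≤ 11 / 5 * N / n.1 ∧ |tt (xf g) k'| ≤ 10 / 9 * (n.1 : ℝ) ^ 2 * δ₂ := by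
    intro k' hk'
    rw [Finset.mem_image] at hk'
    obtain ⟨k, hk, rfl⟩ := hk'
    refine ⟨hu0 k hk, (hu' k hk).2, ?_⟩
    unfold tt
    rw [abs_div, abs_of_pos (hu0 k hk), div_le_iff₀ (hu0 k hk)]
    refine (hj k hk).trans (mul_le_mul_of_nonneg_right ?_ (hu0 k hk).le)
    exact mul_le_mul_of_nonneg_left (hδδ k hk) (by positivity)
  have hTy : r * Tf g * y₀ ^ 2 = A / y ^ 2 * y ^ 2 := by
    rw [hTf, div_mul_cancel₀ _ (by positivity : y ^ 2 ≠ 0), hA]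
  have hAy : r * Tf g * y₀ ^ 4 + A / y ^ 2 * y ^ 4 = A * y₀ ^ 2 + A * y ^ 2 := by
    rw [hTf]
    have h1 : A / y ^ 2 * y ^ 4 = A * y ^ 2 := by
      field_simp
    rw [h1, hA]
    ring
  have hcmp := cmp_h18 (I' := I.image (Pool.Agent.Helper60.LT.kp n)) (T0 := r * Tf g) (y₀ := y₀) (T' := A / y ^ 2) (y := y) (x := xf g) (U := 11 / 5 * N / n.1)
    (t₂ := 10 / 9 * (n.1 : ℝ) ^ 2 * δ₂) (B' := B') (by positivity) (by positivity) huI hTy (by positivity) hT'.le hy₀0.le hy0.le (by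
      rw [hAy, hB']
      refine num1_h18 hB hβ he hρ0 hX hNR hn1 hA1 hy₀0.le hy₀u hy0.le hyu ?_
      rw [mul_pow, hδ₂4]
      ring)
  have e1 : mr I r (st s e) = m12 (I.image (Pool.Agent.Helper60.LT.kp n)) (fun k => ee (r * Tf g * (uu (xf g) k * √(1 + (y₀ * tt (xf g) k) ^ 2)))) := by
    rw [him]
    unfold mr
    refine Pool.Agent.Helper92.DT.m12_congr fun k hk => ?_
    rw [hvf k, nm_frame_h18 hT0 (hu0 k hk), hyf]
    congr 1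
    ring
  have e2 : m12 (I.image (Pool.Agent.Helper60.LT.kp n)) (fun k => ee (A / y ^ 2 * (uu (xf g) k * √(1 + (y * tt (xf g) k) ^ 2)))) =
      m12 (I.image (Pool.Agent.Helper60.LT.kp n)) (fun k => ee (nm (vf (fr 0 y (A / y ^ 2) (xf g)) k))) := by
    refine Pool.Agent.Helper92.DT.m12_congr fun k hk => ?_
    have h1 := (huI k hk).1
    rw [nm_frame_h18 (by rw [hF1]; exact hT') (by rw [hF2]; exact h1), hF1, hF2, hF3]
  rw [e2, ← e1] at hcmp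
  have hfin : mr I r (st s e) ≤ exp (3800 * B') ^ 12 * β ^ 12 * m12 (Pool.Agent.Helper60.LT.st L S (X * N) (A / y ^ 2) (xf g)) (fun k => ee (nm (vf (fr 0 y (A / y ^ 2) (xf g)) k))) := by
    refine hcmp.trans ?_
    rw [mul_assoc]
    exact mul_le_mul_of_nonneg_left hcutb (by positivity)
  unfold PP
  rw [hF1, hF2, ← ENNReal.ofReal_mul (by positivity)]
  exact ENNReal.ofReal_le_ofReal hfin

end Pool.Agent.Helper60.RT
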